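import Pool.Agent.T9h49.SC.IO
import Pool.Agent.T9h49.SC.Comp

/-!
# Languages `K` in `NP` and `M` in `coNP` that agree at almost all scales

The pair number `e` of verifiers is active at the length `n` if a clock shows that `g e ≤ n` and an
exhaustive search with the budget `n` does not find a failure of the pair.  An instance for the
pair `e` and the input `x` is long compared with the clocks of the verifiers.
-/

set_option autoImplicit false

namespace Pool.Agent.T9h88.SC

open Turing Computability Pool.Agent.H583R2 N68a2faeb N793a5b8e Pool.Agent.T9h49.SC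

variable (cd : ℕ → ℕ → Bool) (c : ℕ)

/-- the pair `e` is active at length `n` -/
def actv (n e : ℕ) : Bool := cd e n && !found e n

/-- the exponent for the padding of the instances of the pair `e` -/
def pe (e : ℕ) : ℕ := ((ix e).2.2 + 1) * (c + e)

/-- the instance is valid: its pair is active at its length, and the padding suffices -/
def vld (z : List Bool) : Bool :=
  actv cd z.length (iE z) && decide (tmC (pe c (iE z)) (iX z) (z.length + 1) ≤ z.length)

variable {c}

theorem vld_iff (z : List Bool) : vld cd c z = true ↔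
    actv cd z.length (iE z) = true ∧ tm (pe c (iE z)) (iX z) ≤ z.length := by
  unfold vld tmC
  rw [Bool.and_eq_true, decide_eq_true_eq]
  constructor
  · rintro ⟨h1, h2⟩
    refine ⟨h1, ?_⟩
    by_contra h3
    rw [min_eq_right (by omega)] at h2
    omega
  · rintro ⟨h1, h2⟩
    exact ⟨h1, (min_le_left _ _).trans h2⟩

/-- the clock is smaller than a number whose power is at most the length -/
theorem tm_lt (hc : 1 ≤ c) (e : ℕ) (x : List Bool) :
    tm (ix e).2.2 x + 1 ≤ (x.length + 2) ^ ((ix e).2.2 + 1) ∧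
      ((x.length + 2) ^ ((ix e).2.2 + 1)) ^ (c + e) = tm (pe c e) x := by
  constructor
  · unfold tm
    have h1 : 1 ≤ (x.length + 2) ^ (ix e).2.2 := Nat.one_le_pow _ _ (by omega)
    have h2 : (x.length + 2) ^ ((ix e).2.2 + 1) = (x.length + 2) ^ (ix e).2.2 * (x.length + 2) :=
      pow_succ _ _
    rw [h2]
    nlinarith
  · unfold tm pe
    rw [pow_mul]

theorem tm_le (hc : 1 ≤ c) (e : ℕ) (x : List Bool) : tm (ix e).2.2 x ≤ tm (pe c e) x := by
  obtain ⟨h1, h2⟩ := tm_lt hc e x
  rw [← h2]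
  refine le_trans (by omega) (Nat.le_self_pow (by omega) _)

variable (c)

def RK (q : List Bool × List Bool) : Bool :=
  vld cd c q.1 && accT (ix (iE q.1)).1 (tmC (ix (iE q.1)).2.2 (iX q.1) q.1.length) (iX q.1) q.2

def RN (q : List Bool × List Bool) : Bool :=
  !(vld cd c q.1) ||
    accT (ix (iE q.1)).2.1 (tmC (ix (iE q.1)).2.2 (iX q.1) q.1.length) (iX q.1) q.2

open Classical in
/-- the language in `NP` -/
noncomputable def KK : DecisionProblem := fun z =>
  decide (∃ w : List Bool, w.length ≤ z.length ∧ RK cd c (z, w) = true)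

open Classical in
noncomputable def NN : DecisionProblem := fun z =>
  decide (∃ w : List Bool, w.length ≤ z.length ∧ RN cd c (z, w) = true)

theorem pf_actv (hcd : PF (fun p : ℕ × ℕ => cd p.1 p.2)) {α : Type} [TEnc α] {n e : α → ℕ}
    (hn : PF n) (he : PF e) : PF (fun a => actv cd (n a) (e a)) := by
  unfold actv
  exact PF.and (hcd.comp (PF.pair he hn)) (PF.not (pf_found he hn))

theorem pf_vld (hcd : PF (fun p : ℕ × ℕ => cd p.1 p.2)) {α : Type} [TEnc α]
    {z : α → List Bool} (hz : PF z) : PF (fun a => vld cd c (z a)) := by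
  unfold vld pe
  exact PF.and (pf_actv cd hcd (PF.length hz) (pf_iE hz))
    (PF.le (pf_tmC (PF.mul (PF.succ (PF.snd' (PF.snd' (pf_ix (pf_iE hz)))))
      (PF.add (PF.const c) (pf_iE hz))) (pf_iX hz) (PF.succ (PF.length hz))) (PF.length hz))

theorem pf_RK (hcd : PF (fun p : ℕ × ℕ => cd p.1 p.2)) : PF (RK cd c) := by
  unfold RK
  exact PF.and (pf_vld cd c hcd PF.fst) (pf_accT (PF.fst' (pf_ix (pf_iE PF.fst)))
    (pf_tmC (PF.snd' (PF.snd' (pf_ix (pf_iE PF.fst)))) (pf_iX PF.fst) (PF.length PF.fst))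
    (pf_iX PF.fst) PF.snd)

theorem pf_RN (hcd : PF (fun p : ℕ × ℕ => cd p.1 p.2)) : PF (RN cd c) := by
  unfold RN
  exact PF.or (PF.not (pf_vld cd c hcd PF.fst))
    (pf_accT (PF.fst' (PF.snd' (pf_ix (pf_iE PF.fst))))
    (pf_tmC (PF.snd' (PF.snd' (pf_ix (pf_iE PF.fst)))) (pf_iX PF.fst) (PF.length PF.fst))
    (pf_iX PF.fst) PF.snd)

theorem KK_iff (z : List Bool) :
    KK cd c z = true ↔ ∃ w : List Bool, w.length ≤ z.length ∧ RK cd c (z, w) = true := by
  simp [KK]

theorem NN_iff (z : List Bool) :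
    NN cd c z = true ↔ ∃ w : List Bool, w.length ≤ z.length ∧ RN cd c (z, w) = true := by
  simp [NN]

theorem KK_np (hcd : PF (fun p : ℕ × ℕ => cd p.1 p.2)) : KK cd c ∈ NP :=
  mem_np (pf_RK cd c hcd) (KK_iff cd c)

theorem NN_np (hcd : PF (fun p : ℕ × ℕ => cd p.1 p.2)) : NN cd c ∈ NP :=
  mem_np (pf_RN cd c hcd) (NN_iff cd c)

variable {cd c}

theorem vld_tm (hc : 1 ≤ c) {z : List Bool} (h : vld cd c z = true) :
    tm (ix (iE z)).2.2 (iX z) ≤ z.length :=
  (tm_le hc _ _).trans ((vld_iff cd z).1 h).2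

theorem KK_valid (hc : 1 ≤ c) {z : List Bool} (h : vld cd c z = true) :
    KK cd c z = true ↔ Acc (ix (iE z)).1 (ix (iE z)).2.2 (iX z) := by
  rw [KK_iff]
  unfold RK
  simp only [h, Bool.true_and]
  exact search_iff (vld_tm hc h)

theorem NN_valid (hc : 1 ≤ c) {z : List Bool} (h : vld cd c z = true) :
    NN cd c z = true ↔ Acc (ix (iE z)).2.1 (ix (iE z)).2.2 (iX z) := by
  rw [NN_iff]
  unfold RN
  simp only [h, Bool.not_true, Bool.false_or]
  exact search_iff (vld_tm hc h)

theorem KK_invalid {z : List Bool} (h : ¬ vld cd c z = true) : KK cd c z = false := by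
  rw [← Bool.not_eq_true, KK_iff]
  unfold RK
  rintro ⟨w, _, hw⟩
  rw [Bool.and_eq_true] at hw
  exact h hw.1

theorem NN_invalid {z : List Bool} (h : ¬ vld cd c z = true) : NN cd c z = true := by
  rw [NN_iff]
  unfold RN
  refine ⟨[], by simp, ?_⟩
  rw [Bool.not_eq_true] at h
  simp [h]

variable (cd c) in
/-- the language in `coNP` -/
noncomputable def MM : DecisionProblem := fun z => !(NN cd c z)

theorem MM_conp (hcd : PF (fun p : ℕ × ℕ => cd p.1 p.2)) : MM cd c ∈ coNP := by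
  change (MM cd c)ᶜ ∈ NP
  have h : (MM cd c)ᶜ = NN cd c := by
    funext z
    simp [MM]
  rw [h]
  exact NN_np cd c hcd

theorem pp {A B : Prop} (h : ¬ (A ↔ B)) : A ↔ ¬ B := by tauto

theorem qq {A B : Prop} (h : A ↔ ¬ B) (h' : A ↔ B) : False := by tauto

/-- the pair fails at the input of the instance -/
def Fl (z : List Bool) : Prop :=
  Acc (ix (iE z)).1 (ix (iE z)).2.2 (iX z) ↔ Acc (ix (iE z)).2.1 (ix (iE z)).2.2 (iX z)

/-- `K` and `M` agree unless the instance is valid and the pair fails at its input -/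
theorem agree (hc : 1 ≤ c) {z : List Bool} (h : vld cd c z = true → ¬ Fl z) :
    KK cd c z = MM cd c z := by
  by_cases hv : vld cd c z = true
  · have h1 := KK_valid hc hv
    have h2 := NN_valid hc hv
    have h3 := h hv
    unfold Fl at h3
    unfold MM
    rw [Bool.eq_iff_iff, h1, Bool.not_eq_true', ← Bool.not_eq_true, h2]
    exact pp h3
  · rw [KK_invalid hv, MM, NN_invalid hv]
    rfl

/-- the lengths of the valid instances at which the pair `e` fails -/
def Bad (cd : ℕ → ℕ → Bool) (c e : ℕ) (n : ℕ) : Prop :=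
  ∃ z : List Bool, z.length = n ∧ iE z = e ∧ vld cd c z = true ∧ Fl z

open Classical in
/-- the first bad length of the pair `e` -/
noncomputable def fb (cd : ℕ → ℕ → Bool) (c : ℕ) (g : ℕ → ℕ) (e : ℕ) : ℕ :=
  if h : ∃ n, Bad cd c e n then Nat.find h else g e

variable {g : ℕ → ℕ}

theorem le_fb (h2 : ∀ a m, cd a m = true → g a ≤ m) (e : ℕ) : g e ≤ fb cd c g e := by
  classical
  unfold fb
  split_ifs with h
  · obtain ⟨z, h3, h4, h5, -⟩ := Nat.find_spec h
    rw [← h3]
    have h6 := ((vld_iff cd z).1 h5).1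
    unfold actv at h6
    rw [Bool.and_eq_true, h4] at h6
    exact h2 _ _ h6.1
  · exact le_rfl

/-- the failure at the first bad length is found at exponential lengths -/
theorem bound (hc : 1 ≤ c) {z : List Bool} (hv : vld cd c z = true) (hF : Fl z) :
    fb cd c g (iE z) ≤ z.length ∧
      ∃ t : ℕ, t ^ (c + iE z) ≤ fb cd c g (iE z) ∧ z.length < 2 ^ t := by
  classical
  have hex : ∃ n, Bad cd c (iE z) n := ⟨_, z, rfl, rfl, hv, hF⟩
  have hfb : fb cd c g (iE z) = Nat.find hex := by unfold fb; rw [dif_pos hex]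
  obtain ⟨z0, h3, h4, h5, h6⟩ := Nat.find_spec hex
  rw [hfb]
  refine ⟨Nat.find_min' hex ⟨z, rfl, rfl, hv, hF⟩, ?_⟩
  obtain ⟨k1, k2⟩ := tm_lt hc (iE z) (iX z0)
  refine ⟨(((iX z0).length + 2) ^ ((ix (iE z)).2.2 + 1)), ?_, ?_⟩
  · rw [k2, ← h3, ← h4]
    exact ((vld_iff cd z0).1 h5).2
  · have h7 := ((vld_iff cd z).1 hv).1
    unfold actv at h7
    rw [Bool.and_eq_true, Bool.not_eq_true'] at h7
    by_contra hcon
    rw [not_lt] at hcon
    have h8 : 2 ^ (tm (ix (iE z)).2.2 (iX z0) + 1) ≤ z.length :=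
      (Nat.pow_le_pow_right (by norm_num) k1).trans hcon
    have h9 : found (iE z) z.length = true := by
      rw [found_iff]
      refine ⟨iX z0, ?_, h8, ?_⟩
      · have h10 := idx_lt (iX z0)
        have h11 : (iX z0).length + 2 ≤ ((iX z0).length + 2) ^ ((ix (iE z)).2.2 + 1) :=
          Nat.le_self_pow (by omega) _
        have h12 : 2 ^ ((iX z0).length + 1) ≤ 2 ^ (((iX z0).length + 2) ^ ((ix (iE z)).2.2 + 1)) :=
          Nat.pow_le_pow_right (by norm_num) (by omega)
        omega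
      · unfold Fl at h6
        rw [h4] at h6
        exact h6
    rw [h9] at h7
    exact absurd h7.2 (by simp)

theorem hard (hc : 1 ≤ c) (h3 : ∀ a, ∃ m₀, ∀ m, m₀ ≤ m → cd a m = true) {L : DecisionProblem}
    (hL : L ∈ NP ∩ coNP) :
    ∃ f : List Bool → List Bool, IsPolyTime f ∧
      ∀ x, L x = KK cd c (f x) ∧ L x = MM cd c (f x) := by
  obtain ⟨c1, k1, h1⟩ := np_nf hL.1
  obtain ⟨c2, k2, h2⟩ := np_nf (L := Lᶜ) hL.2
  set k := max k1 k2 with hk
  obtain ⟨e, he⟩ := exists_ix (c1, c2, k)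
  have hA1 : ∀ x, Acc (ix e).1 (ix e).2.2 x ↔ L x = true := fun x => by
    rw [he]; exact (h1 k (le_max_left _ _) x).symm
  have hA2 : ∀ x, Acc (ix e).2.1 (ix e).2.2 x ↔ L x = false := fun x => by
    rw [he]
    have h3 : Lᶜ x = true ↔ L x = false := by simp
    rw [← h3]
    exact (h2 k (le_max_right _ _) x).symm
  have hgood : Good e := by
    intro x
    rw [hA1, hA2]
    simp
  obtain ⟨J, hJ⟩ := h3 e
  have hpf : PF (fun x : List Bool => inst e x ((x.length + 2) ^ (pe c e) + J)) :=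
    pf_inst (PF.const e) PF.id (PF.add (pf_powK (PF.add (PF.length PF.id) (PF.const 2)) (pe c e))
      (PF.const J))
  refine ⟨_, isPolyTime_of_pf hpf, fun x => ?_⟩
  have hlen := le_inst e x ((x.length + 2) ^ (pe c e) + J)
  have hv : vld cd c (inst e x ((x.length + 2) ^ (pe c e) + J)) = true := by
    rw [vld_iff, iE_inst, iX_inst]
    refine ⟨?_, ?_⟩
    · unfold actv
      rw [Bool.and_eq_true, Bool.not_eq_true']
      refine ⟨hJ _ (by omega), ?_⟩
      by_contra hf
      exact not_good_of_found (by simpa using hf) hgood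
    · unfold tm
      omega
  have hK := KK_valid hc hv
  rw [iE_inst, iX_inst, hA1] at hK
  have hag : KK cd c (inst e x ((x.length + 2) ^ (pe c e) + J)) =
      MM cd c (inst e x ((x.length + 2) ^ (pe c e) + J)) := agree hc fun _ hF => by
    unfold Fl at hF
    rw [iE_inst, iX_inst] at hF
    exact qq (hgood x) hF
  refine ⟨?_, ?_⟩
  · rw [Bool.eq_iff_iff]; exact hK.symm
  · rw [← hag, Bool.eq_iff_iff]; exact hK.symm

theorem main (g : ℕ → ℕ) (hg : Computable g) (c : ℕ) (hc : 1 ≤ c) :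
    ∃ K M : DecisionProblem, K ∈ NP ∧ M ∈ coNP ∧
      (∀ L ∈ NP ∩ coNP, ∃ f : List Bool → List Bool, IsPolyTime f ∧
        ∀ x, L x = K (f x) ∧ L x = M (f x)) ∧
      ∃ s : ℕ → ℕ, (∀ i, g i ≤ s i) ∧ ∀ z : List Bool, K z ≠ M z →
        ∃ i, s i ≤ z.length ∧ (z.length : ℝ) ≤ 2 ^ ((s i : ℝ) ^ ((1 : ℝ) / (c + i))) := by
  obtain ⟨cd, h1, h2, h3⟩ := exists_clock hg
  refine ⟨KK cd c, MM cd c, KK_np cd c h1, MM_conp h1, fun L hL => hard hc h3 hL,
    fb cd c g, le_fb h2, fun z hz => ?_⟩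
  have hv : vld cd c z = true ∧ Fl z := by
    by_contra hcon
    exact hz (agree hc fun hv hF => hcon ⟨hv, hF⟩)
  obtain ⟨h4, t, h5, h6⟩ := bound (g := g) hc hv.1 hv.2
  refine ⟨iE z, h4, ?_⟩
  have h7 : (z.length : ℝ) ≤ (2 : ℝ) ^ (t : ℝ) := by
    rw [Real.rpow_natCast]
    exact_mod_cast h6.le
  refine h7.trans (Real.rpow_le_rpow_of_exponent_le (by norm_num) ?_)
  have h8 : (0 : ℝ) < (c : ℝ) + (iE z : ℝ) := by
    have : (1 : ℝ) ≤ c := by exact_mod_cast hc
    positivity
  have h9 : ((t : ℝ) ^ ((c : ℝ) + (iE z : ℝ))) ≤ (fb cd c g (iE z) : ℝ) := by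
    have : ((t : ℝ) ^ ((c + iE z : ℕ) : ℝ)) ≤ (fb cd c g (iE z) : ℝ) := by
      rw [Real.rpow_natCast]
      exact_mod_cast h5
    push_cast at this
    exact this
  rw [one_div]
  exact (Real.le_rpow_inv_iff_of_pos (Nat.cast_nonneg _) (Nat.cast_nonneg _) h8).2 h9

end Pool.Agent.T9h88.SC
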